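import Pool.Agent.Q50.EX.Fin

namespace Pool.Agent.Results.MP_f11a48_ag.MinorsAndTorsors

open Pool.Agent.Q50.LR Pool.Agent.Q50.SR Pool.Agent.Q50.EX

/-- Let `K` be an algebraically closed field in `ℂ`, let the indices `1, …, n` be coloured and let `P`
be an invertible complex matrix which respects the colours. Suppose that the minors of a given size of
each block of `P` are linearly independent over `K`, that so are the products of an entry of a block
and an entry of another block of the same size, and that no block of odd size is a similitude. (The
period matrix of the transcendental part of a K3 surface with complex multiplication by `E`, of even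
rank over `E`, by the theorem of Wüstholz for the Kuga-Satake variety; the blocks are the parts on
which `E` acts by one embedding, up to conjugation.)

Then every `K`-torsor through `P` contains a torsor of the product of the special linear groups of the
colours, and one of the product of the general linear groups if no monomial in the determinants of
the blocks is algebraic over `K`. -/
theorem result (K : Type) [Field K] [Algebra K ℂ] [IsAlgClosed K] {n e : ℕ} (c : Fin n → Fin e)
    (P : GL (Fin n) ℂ) (hP : Respects c (P : Matrix (Fin n) (Fin n) ℂ))
    (hmin : ∀ σ, ∀ k, 1 ≤ k → 2 * k ≤ size c σ →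
      IndependentMinors K k ((P : Matrix (Fin n) (Fin n) ℂ).toSquareBlock c σ))
    (hprod : ∀ σ τ, σ ≠ τ → size c σ = size c τ → 2 ≤ size c σ →
      IndependentProducts K ((P : Matrix (Fin n) (Fin n) ℂ).toSquareBlock c σ)
        ((P : Matrix (Fin n) (Fin n) ℂ).toSquareBlock c τ))
    (hodd : ∀ σ, Odd (size c σ) → 3 ≤ size c σ →
      ¬ IsSimilitude K ((P : Matrix (Fin n) (Fin n) ℂ).toSquareBlock c σ))
    (H : Subgroup (GL (Fin n) ℂ)) (hH : IsAlgebraicGroup K H) (hPH : OnTorsor K H P) :
    ContainsColouredSL c H ∧
      (DeterminantsIndependent K c (P : Matrix (Fin n) (Fin n) ℂ) →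
        ∀ g : GL (Fin n) ℂ, Respects c (g : Matrix (Fin n) (Fin n) ℂ) → g ∈ H) :=
  minors_and_torsors hP hmin hprod hodd hH hPH

end Pool.Agent.Results.MP_f11a48_ag.MinorsAndTorsors
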