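import Pool.Agent.Q26.GP.Ten

/-!
# The smallest torsor of periods contains the orbit of the monodromy group, for almost all members of every family

Let `K` be a field of algebraic numbers and `c` the period matrix of a de Rham-Betti object `M` over `K` of rank `n`, for
example of an André motive: `Iso (M_dR, M_B ⊗ K) = GL_n` after the choice of bases, and the group on the Betti side acts
by multiplication from the left. `Ω_M` is the smallest `K`-subtorsor that contains `c` (`smallest`).

1. `Ω_M` is a `K`-subtorsor. **Relations of bounded degree suffice**: there is a number `d` which depends only on `n` such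
that for all `K`, all `K`-subtorsors `T` of `GL_n`, all points `c` of `T` and all subspaces `g` of `gl_n(ℂ)`: if the
polynomials over `K` of degree at most `d` that vanish on `T` vanish on `exp(g) c`, then `exp([[g, g], g]) c ⊆ T`. So if `g`
is perfect (the Lie algebra of a semisimple group, for example) then `exp(g) c ⊆ T` if and only if this is true for the
polynomials over `K` of degree at most `d` that vanish on `T`. For `T = Ω_M` and the torsor `Ω^And_M` of motivated periods
of a motive, whose group is reductive: if all relations of degree at most `d` over `K` between the periods are motivated,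
then `Ω_M` contains the orbit of `c` under the derived group of the connected component of the motivated Galois group. So
`Ω_M`, and all relations of arbitrarily high degree that come from de Rham-Betti tensors, are controlled by relations of
degree at most `d(n)` up to the centre.

2. If `Ω_M ⊇ exp(g) c`, where the elements of `g` have trace zero, if `det c` is transcendental (this is the case for motives
of nonzero weight) and `T₀` is a `K`-subtorsor that contains `c` and is contained in `ℂ^× G c`, where `G` is the group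
generated by `exp(g)`, then `Ω_M = T₀`.

3. If `Ω_M ⊇ exp(g) c` then all de Rham-Betti tensors on `M`, that is all pairs `(a, F)` of linear maps `a` over `K` from
`M_dR^{⊗q}` to `M_dR^{⊗p}` and `F` over `K` (for instance over `ℚ`) from `M_B^{⊗q}` to `M_B^{⊗p}` that correspond to each
other under `c`, for all `p` and `q`, are invariant under `exp(g)`.

4. **Families**: Let `Z` be a fundamental matrix, regular at `z = 0`, of a system `f Z' = Z A` over `ℚ(z)` such that the
entries of `Z` and of `W = Z⁻¹` are G-functions, for example the matrix of the Gauss-Manin connection of a family of smooth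
projective varieties over `ℚ` with good fibre at `z = 0`, and let `Ω` be any invertible complex matrix (the periods of the
fibre at `z = 0`), so that `Ω Z(1/m)` is the period matrix of the fibre `X_m` at `z = 1/m`. The differential Galois group
of the system, the Zariski closure of the monodromy group in the case of families of varieties, is the group of all `γ` that
preserve the polynomial relations over `ℂ` between `z` and the entries of `Z` (`Galois`). Let `g` be a space of matrices with
`exp(g)` contained in this group, for example its Lie algebra. For all `k`-tuples of separated integers in `[N, N + N^c]`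
outside a set of at most `M` integers, and for all but `C T^(k - c)` of the `k`-tuples in `[2, T]^k`, the torsor `Ω_M` of
`M = h(X_{m_1}) ⊕ ... ⊕ h(X_{m_k})`, over all fields `K` of degree at most `D`, contains the orbit of `c` under
`exp([[g, g], g])^k`. So if the monodromy group is semisimple (theorem of Deligne, for the connected component) then `Ω_M`
contains the orbit of `c` under the `k`-th power of its connected component. By 3. all de Rham-Betti classes of arbitrary
degree on all products of powers of the `X_{m_l}` are invariant under the monodromy of all `k` factors, and by 2.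
`Ω_M = Ω^dRB_M = Ω^And_M` if the monodromy is as large as the derived group of the motivated Galois group, the centre
consists of the scalars and the weight is not zero.

The proof of 1: The Lie algebra `h` of `T`, on both sides, is defined over `K`, so that `x h' x⁻¹ = h` are relations of
bounded degree over `K`; so `g` normalises `h`. Let `N(h)` be the normaliser of `h` in `gl_n`. The logarithmic derivatives
of points of `T` along derivations of `ℂ` over `K` are in `h`, so that the points of `T` act on `N(h') / h' → N(h) / h` by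
matrices with algebraic entries. Hence the group of `T` acts on `N(h) / h` through a finite group. By the theorem of Jordan
bounded powers in this group commute; this is a relation of bounded degree, which holds on `exp(g) c`, so that `[g, g]` acts
trivially on `N(h) / h`, which contains `g`. Part 4 uses the theorem on relations of bounded degree in general families of
this repository (`GeneralFamilies`).
-/

set_option autoImplicit false

open Matrix PowerSeries

namespace Pool.Agent.Results.MP_f11a48_ag.MonodromyOrbits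

/-- The value of a polynomial over `K` at a matrix. -/
noncomputable def value {K : Subfield ℂ} {B : Type} (x : Matrix B B ℂ) (P : MvPolynomial (B × B) K) : ℂ :=
  MvPolynomial.aeval (fun b : B × B => x b.1 b.2) P

/-- `T` is (the set of complex points of) a `K`-subtorsor of `GL_B = Iso (M_dR, M_B)`: it is closed under `x y⁻¹ z`, and
it is defined in `GL_B` by polynomials with coefficients in `K`. -/
def IsSubtorsor (K : Subfield ℂ) {B : Type} [Fintype B] [DecidableEq B] (T : Set (Matrix B B ℂ)) : Prop :=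
  (∀ x ∈ T, ∀ y ∈ T, ∀ z ∈ T, x * y⁻¹ * z ∈ T) ∧
    ∃ I : Set (MvPolynomial (B × B) K), ∀ x : Matrix B B ℂ, x ∈ T ↔ IsUnit x ∧ ∀ P ∈ I, value x P = 0

/-- The smallest `K`-subtorsor that contains `c`: the intersection of all of them. -/
def smallest (K : Subfield ℂ) {B : Type} [Fintype B] [DecidableEq B] (c : Matrix B B ℂ) : Set (Matrix B B ℂ) :=
  {x | ∀ T, IsSubtorsor K T → c ∈ T → x ∈ T}

/-- The space `[[g, g], g]`. -/
def third {B : Type} [Fintype B] (g : Submodule ℂ (Matrix B B ℂ)) : Submodule ℂ (Matrix B B ℂ) :=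
  Submodule.span ℂ {Z | ∃ X ∈ g, ∃ Y ∈ g, ∃ W ∈ g, Z = (X * Y - Y * X) * W - W * (X * Y - Y * X)}

/-- All polynomials over `K` of degree at most `d` that vanish on `T` vanish on `exp(g) c`. -/
def BoundedRelations (K : Subfield ℂ) {B : Type} [Fintype B] [DecidableEq B] (d : ℕ) (T : Set (Matrix B B ℂ))
    (g : Submodule ℂ (Matrix B B ℂ)) (c : Matrix B B ℂ) : Prop :=
  ∀ P : MvPolynomial (B × B) K, P.totalDegree ≤ d → (∀ x ∈ T, value x P = 0) →
    ∀ X ∈ g, value (NormedSpace.exp X * c) P = 0

/-- The tensor power of a matrix. -/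
def tensorPower {B : Type} (p : ℕ) (x : Matrix B B ℂ) : Matrix (Fin p → B) (Fin p → B) ℂ :=
  Matrix.of fun I J => ∏ i, x (I i) (J i)

/-- The arithmetic conditions in the definition of a G-function, for a power series with rational coefficients: geometric
growth of the coefficients and of their common denominators. -/
def GCond (g : ℚ⟦X⟧) : Prop := ∃ C : ℝ, (∀ m, |((coeff m g : ℚ) : ℝ)| ≤ C ^ (m + 1)) ∧
  ∀ m, ∃ d : ℕ, 0 < d ∧ (d : ℝ) ≤ C ^ (m + 1) ∧ ∀ j ≤ m, ∃ a : ℤ, (d : ℚ) * coeff j g = a

/-- The variable `z` and the entries of a matrix `Y`. -/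
def point {n : ℕ} (z : ℂ⟦X⟧) (Y : Matrix (Fin n) (Fin n) ℂ⟦X⟧) (o : Option (Fin n × Fin n)) : ℂ⟦X⟧ :=
  o.elim z fun p => Y p.1 p.2

/-- `γ` is in the differential Galois group: every polynomial relation over `ℂ` between `z` and the entries of `Z` holds for
`γ Z`. -/
def Galois {n : ℕ} (Z : Matrix (Fin n) (Fin n) ℚ⟦X⟧) (γ : Matrix (Fin n) (Fin n) ℂ) : Prop :=
  ∀ F : MvPolynomial (Option (Fin n × Fin n)) ℂ,
    MvPolynomial.aeval (point PowerSeries.X (Z.map (PowerSeries.map (algebraMap ℚ ℂ)))) F = 0 →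
    MvPolynomial.aeval (point PowerSeries.X (γ.map (PowerSeries.C : ℂ →+* ℂ⟦X⟧) *
      Z.map (PowerSeries.map (algebraMap ℚ ℂ)))) F = 0

/-- The value of the matrix `Z` at `1 / x`. -/
noncomputable def valueAt {n : ℕ} (Z : Matrix (Fin n) (Fin n) ℚ⟦X⟧) (x : ℝ) : Matrix (Fin n) (Fin n) ℂ :=
  Matrix.of fun a b => ((∑' m : ℕ, ((coeff m (Z a b) : ℚ) : ℝ) * (1 / x) ^ m : ℝ) : ℂ)

/-- The period matrix of the sum of the members at `1 / m_1, ..., 1 / m_k`. -/
noncomputable def periods {n k : ℕ} (Ω : Matrix (Fin n) (Fin n) ℂ) (Z : Matrix (Fin n) (Fin n) ℚ⟦X⟧) (m : Fin k → ℕ) :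
    Matrix (Fin n × Fin k) (Fin n × Fin k) ℂ :=
  blockDiagonal fun l => Ω * valueAt Z (m l)

/-- The torsor `Ω_M` of the sum of the members contains the orbit of the period matrix under `exp([[g, g], g])^k`, acting
through `X ↦ Ω X Ω⁻¹` on the Betti side, whenever `exp(g)` is contained in the differential Galois group. -/
def ContainsOrbits {n k : ℕ} (Ω : Matrix (Fin n) (Fin n) ℂ) (Z : Matrix (Fin n) (Fin n) ℚ⟦X⟧) (K : Subfield ℂ)
    (m : Fin k → ℕ) : Prop :=
  ∀ g : Submodule ℂ (Matrix (Fin n) (Fin n) ℂ), (∀ X ∈ g, Galois Z (NormedSpace.exp X)) →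
    ∀ X : Fin k → Matrix (Fin n) (Fin n) ℂ, (∀ l, X l ∈ third g) →
      NormedSpace.exp (blockDiagonal fun l => Ω * X l * Ω⁻¹) * periods Ω Z m ∈ smallest K (periods Ω Z m)

open Pool.Agent.Q26.GP in
theorem sub_iff {B : Type} [Fintype B] [DecidableEq B] {K : Subfield ℂ} {T : Set (Matrix B B ℂ)} :
    IsSubtorsor K T ↔ Pool.Agent.TH127.PT.IsSubtorsor K T := subT_iff (K := K) (T := T)

theorem smallest_sub {B : Type} [Fintype B] [DecidableEq B] (K : Subfield ℂ) (c : Matrix B B ℂ) (hc : IsUnit c) :
    IsSubtorsor K (smallest K c) := by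
  have hGL : IsSubtorsor K {x : Matrix B B ℂ | IsUnit x} := by
    refine ⟨?_, ∅, fun x => ?_⟩
    · intro x hx y hy z hz
      exact (IsUnit.mul hx ((Matrix.isUnit_nonsing_inv_iff).2 hy)).mul hz
    · simp
  refine ⟨fun x hx y hy z hz T hT hcT => hT.1 x (hx T hT hcT) y (hy T hT hcT) z (hz T hT hcT),
    {P | ∃ T, IsSubtorsor K T ∧ c ∈ T ∧ ∀ x ∈ T, value x P = 0}, fun x => ⟨fun hx => ⟨?_, ?_⟩, ?_⟩⟩
  · exact hx _ hGL hc
  · rintro P ⟨T, hT, hcT, hP⟩
    exact hP x (hx T hT hcT)
  · rintro ⟨hx, hP⟩ T hT hcT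
    obtain ⟨I, hI⟩ := hT.2
    rw [hI]
    exact ⟨hx, fun P hPI => hP P ⟨T, hT, hcT, fun y hy => ((hI y).1 hy).2 P hPI⟩⟩

open Pool.Agent.Q26.GP in
theorem rel_iff {B : Type} [Fintype B] [DecidableEq B] {K : Subfield ℂ} {d : ℕ} {T : Set (Matrix B B ℂ)}
    {g : Submodule ℂ (Matrix B B ℂ)} {c : Matrix B B ℂ} :
    BoundedRelations K d T g c → RelT K T d (Orb g c) := by
  rintro h P hPK hPd hP _ ⟨X, hX, rfl⟩
  obtain ⟨P0, rfl⟩ := Pool.Agent.Y123.ST.exists_map P hPK
  rw [deg_map] at hPd
  have h1 := h P0 hPd (fun x hx => (val_eq x P0).trans (hP x hx)) X hX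
  exact (val_eq _ P0).symm.trans h1

/-- a subtorsor which contains the orbit of `c` is stable -/
theorem stable_of {B : Type} [Fintype B] [DecidableEq B] {K : Subfield ℂ} {c : Matrix B B ℂ} (hc : IsUnit c)
    {g : Submodule ℂ (Matrix B B ℂ)} (h : ∀ X ∈ g, NormedSpace.exp X * c ∈ smallest K c) :
    Pool.Agent.Q26.GP.Stb K c g := by
  intro T hT hcT X hX x hx
  have hcc : c * c⁻¹ = 1 := mul_nonsing_inv _ ((isUnit_iff_isUnit_det c).1 hc)
  have h1 := hT.torsor _ (h X hX T (sub_iff.2 hT) hcT) c hcT x hx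
  rwa [Matrix.mul_assoc (NormedSpace.exp X), hcc, Matrix.mul_one] at h1

open Classical in
theorem result :
    -- 1: relations of bounded degree suffice
    (∀ (B : Type) [Fintype B] [DecidableEq B],
      (∀ (K : Subfield ℂ) (c : Matrix B B ℂ), IsUnit c → IsSubtorsor K (smallest K c)) ∧
      ∃ d : ℕ, ∀ K : Subfield ℂ, (∀ x ∈ K, IsAlgebraic ℚ x) → ∀ T : Set (Matrix B B ℂ), IsSubtorsor K T → ∀ c ∈ T,
        ∀ g : Submodule ℂ (Matrix B B ℂ),
          (BoundedRelations K d T g c → ∀ X ∈ third g, NormedSpace.exp X * c ∈ T) ∧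
          (g ≤ third g → (BoundedRelations K d T g c ↔ ∀ X ∈ g, NormedSpace.exp X * c ∈ T))) ∧
    -- 2: equality
    (∀ (B : Type) [Fintype B] [DecidableEq B] (K : Subfield ℂ), (∀ x ∈ K, IsAlgebraic ℚ x) →
      ∀ (c : Matrix B B ℂ) (g : Submodule ℂ (Matrix B B ℂ)), Transcendental ℚ c.det → (∀ X ∈ g, X.trace = 0) →
        (∀ X ∈ g, NormedSpace.exp X * c ∈ smallest K c) → ∀ T₀ : Set (Matrix B B ℂ), IsSubtorsor K T₀ → c ∈ T₀ →
        (∀ x ∈ T₀, ∃ z : ℂ, z ≠ 0 ∧ ∃ γ ∈ Submonoid.closure {y | ∃ X ∈ g, y = NormedSpace.exp X}, x = z • (γ * c)) →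
        smallest K c = T₀) ∧
    -- 3: tensors
    (∀ (B : Type) [Fintype B] [DecidableEq B] (K : Subfield ℂ) (c : Matrix B B ℂ) (g : Submodule ℂ (Matrix B B ℂ)),
      IsUnit c → (∀ X ∈ g, NormedSpace.exp X * c ∈ smallest K c) →
        ∀ (p q : ℕ) (a F : Matrix (Fin p → B) (Fin q → B) K),
          tensorPower p c * a.map (algebraMap K ℂ) = F.map (algebraMap K ℂ) * tensorPower q c →
          ∀ X ∈ g, tensorPower p (NormedSpace.exp X) * F.map (algebraMap K ℂ) =
            F.map (algebraMap K ℂ) * tensorPower q (NormedSpace.exp X)) ∧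
    -- 4: families
    (∀ (n : ℕ) (f : Polynomial ℚ) (A : Matrix (Fin n) (Fin n) (Polynomial ℚ)) (Z W : Matrix (Fin n) (Fin n) ℚ⟦X⟧),
      f.coeff 0 ≠ 0 → (∀ i j, (f : ℚ⟦X⟧) * PowerSeries.derivative ℚ (Z i j) = ∑ k, Z i k * (A k j : ℚ⟦X⟧)) →
      W * Z = 1 → (∀ i j, GCond (Z i j)) → (∀ i j, GCond (W i j)) →
      ∃ G : ℕ, ∀ k D : ℕ,
        (∃ M : ℕ, ∃ c : ℝ, 0 < c ∧ ∀ Ω : Matrix (Fin n) (Fin n) ℂ, IsUnit Ω →
          ∀ K : Subfield ℂ, FiniteDimensional ℚ K → Module.finrank ℚ K ≤ D → ∀ N : ℕ, 1 ≤ N →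
          ∃ S : Finset ℕ, S.card ≤ M ∧ ∀ m : Fin k → ℕ, (∀ i j, i ≠ j → (G : ℤ) ≤ |(m i : ℤ) - m j|) →
            (∀ i, N ≤ m i ∧ (m i : ℝ) ≤ N + (N : ℝ) ^ c ∧ m i ∉ S) → ContainsOrbits Ω Z K m) ∧
        ∃ c : ℝ, 0 < c ∧ ∃ C : ℝ, ∀ Ω : Matrix (Fin n) (Fin n) ℂ, IsUnit Ω →
          ∀ K : Subfield ℂ, FiniteDimensional ℚ K → Module.finrank ℚ K ≤ D → ∀ T : ℕ, 1 ≤ T →
          (((Fintype.piFinset fun _ : Fin k => Finset.Icc 2 T).filter fun m => ¬ ContainsOrbits Ω Z K m).card : ℝ) ≤
            C * (T : ℝ) ^ ((k : ℝ) - c)) := by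
  refine ⟨fun B _ _ => ⟨fun K c hc => smallest_sub K c hc, ?_⟩, ?_, ?_, ?_⟩
  · obtain ⟨d, hd⟩ := Pool.Agent.Q26.GP.crit B
    refine ⟨d, fun K hK T hT c hc g => ?_⟩
    have h1 : BoundedRelations K d T g c → ∀ X ∈ third g, NormedSpace.exp X * c ∈ T := fun hr X hX =>
      hd K hK T (sub_iff.1 hT) c hc g (rel_iff hr) X hX c hc
    exact ⟨h1, fun hg => ⟨fun hr X hX => h1 hr X (hg hX), fun h P _ hP X hX => hP _ (h X hX)⟩⟩
  · intro B _ _ K hK c g hdet htr hs T₀ hT₀ hc₀ h₀
    have hc : IsUnit c := (sub_iff.1 hT₀).isUnit c hc₀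
    apply Set.Subset.antisymm
    · exact fun x hx => hx T₀ hT₀ hc₀
    · intro x hx T hT hcT
      exact Pool.Agent.Q26.GP.equal hK htr hdet (sub_iff.1 hT₀) hc₀ h₀ (sub_iff.1 hT) hcT
        (stable_of hc hs T (sub_iff.1 hT) hcT) hx
  · intro B _ _ K c g hc hs p q a F h X hX
    exact Pool.Agent.Q26.GP.tensor_inv hc (stable_of hc hs) p q a F h hX
  · intro n f A Z W hf hode hW hGZ hGW
    obtain ⟨G, hG⟩ := Pool.Agent.Q26.GP.fam (Pool.Agent.Q26.GP.dat hf hode hW hGZ hGW)
    have key : ∀ {k : ℕ} (Ω : Matrix (Fin n) (Fin n) ℂ) (K : Subfield ℂ) (m : Fin k → ℕ),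
        Pool.Agent.Q26.GP.Good Z Ω K m → ContainsOrbits Ω Z K m := by
      intro k Ω K m h g hg X hX T hT hcT
      exact h g hg T (sub_iff.1 hT) hcT _ ⟨X, Submodule.mem_pi.2 fun l _ => hX l, rfl⟩ _ hcT
    refine ⟨G, fun k D => ?_⟩
    obtain ⟨⟨M, c, hc, h1⟩, c', hc', C, h2⟩ := hG k D
    refine ⟨⟨M, c, hc, fun Ω hΩ K hK hKD N hN => ?_⟩, c', hc', C, fun Ω hΩ K hK hKD T hT => ?_⟩
    · obtain ⟨S, hS, hS2⟩ := h1 Ω hΩ K hK hKD N hN
      exact ⟨S, hS, fun m hm hm2 => key Ω K m (hS2 m hm hm2)⟩
    · refine le_trans ?_ (h2 Ω hΩ K hK hKD T hT)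
      have h3 : (Fintype.piFinset fun _ : Fin k => Finset.Icc 2 T).filter (fun m => ¬ ContainsOrbits Ω Z K m) ⊆
          (Fintype.piFinset fun _ : Fin k => Finset.Icc 2 T).filter
            fun m => ¬ Pool.Agent.Q26.GP.Good Z Ω K m := by
        intro m hm
        rw [Finset.mem_filter] at hm ⊢
        exact ⟨hm.1, fun h => hm.2 (key Ω K m h)⟩
      exact_mod_cast Finset.card_le_card h3

end Pool.Agent.Results.MP_f11a48_ag.MonodromyOrbits
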