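import Pool.Agent.Q57.DS.Fin

/-!
# The index of the de Rham-Betti classes over the motivated classes

If `Ω^dRB_M = Ω^And_M` for the motives `M` in the tensor category generated by `h(X)`, then all de
Rham-Betti classes on all powers of `X` are motivated. Let `X` be a smooth projective variety over a
field `K` of algebraic numbers, and let `b` be its total Betti number. We prove unconditionally:

* motivated classes are Hodge classes and de Rham-Betti classes (this is well known; it is deduced
  here from the formal properties of algebraic de Rham cohomology and hard Lefschetz);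
* the quotient of the dimensions of the spaces of the de Rham-Betti classes and of the motivated
  classes on `X^n` tends to an element `N ≥ 1` of `ℕ ∪ {∞}`; we have `N = 1` if and only if all de
  Rham-Betti classes on all powers of `X` are motivated, and if `N` is finite, then all de
  Rham-Betti classes on all powers of `X` are generated, under motivated correspondences, by the
  motivated classes and at most `N - 1` de Rham-Betti classes;
* the analogous quotient for the motivated classes and the algebraic cycles modulo numerical
  equivalence tends to `M ≥ 1`, with `M = 1` if and only if all motivated classes on the powers are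
  algebraic, and the one for the de Rham-Betti classes and the cycles tends to `N M`;
* if `N ≠ 1`, the motivated classes are at most about one half of the de Rham-Betti classes, with an
  explicit bound: if `N₀ ≥ 8` is even and there is a de Rham-Betti class on one of the varieties
  `X, X^2, …, X^(N₀)` which is not motivated, then for every `ε > 0` and all `n` with
  `n + 1 ≥ (2 b)^(3 N₀) / ε^2` the motivated classes on `X^(n+1)` span a space of dimension at most
  `1/2 + ε` times the dimension of the space of the de Rham-Betti classes.

The theorem is proved for an arbitrary class of smooth projective varieties which is stable under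
products, a Hodge theory `T` on it, and a de Rham structure `D` on `T` over a subfield `F` of `ℂ`.
-/

open CategoryTheory AlgebraicGeometry

universe u

namespace Pool.Agent.Results.MP_f11a48_ag.MotivatedIndex

open Pool.Agent.H914 Pool.Agent.H914.VarClass.Obj Pool.Agent.H914.WeilCohomology
open Pool.Agent.Y121.AHS (HodgeTheory IsHodge)
open Pool.Agent.Y133.Half (pw)
open Pool.Agent.Q50.MO (Motivated)
open Pool.Agent.Q57.DS

variable {k : Type u} [Field k] {𝒱 : VarClass k} {ops : CycleOps 𝒱}

/-- **The index of the de Rham-Betti classes over the motivated classes.** `pw X n` is the product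
of `n + 1` copies of `X`. -/
theorem result (T : HodgeTheory ops) {F : Subfield ℂ} (D : DRStr T F) (X : 𝒱.Obj)
    [Nontrivial (T.W.H X)] :
    (∀ (Y : 𝒱.Obj) (j : ℕ) (c : T.W.H Y), Motivated T.W Y j c →
      IsHodge T Y j c ∧ IsDRB D Y j c) ∧
    (∃ N M : ℕ∞, 1 ≤ N ∧ 1 ≤ M ∧
      Index (fun n => dimP (IsDRB D) (pw X n)) (fun n => dimP (Motivated T.W) (pw X n)) N ∧
      Index (fun n => dimP (Motivated T.W) (pw X n)) (fun n => cycRk ops (pw X n)) M ∧
      Index (fun n => dimP (IsDRB D) (pw X n)) (fun n => cycRk ops (pw X n)) (N * M) ∧
      (N = 1 ↔ ∀ n j c, IsDRB D (pw X n) j c → Motivated T.W (pw X n) j c) ∧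
      (M = 1 ↔ ∀ n j c, Motivated T.W (pw X n) j c → IsAlg T.W (pw X n) j c) ∧
      (N ≠ ⊤ → GeneratedP (Motivated T.W) (IsDRB D) X N)) ∧
    ∀ N₀ : ℕ, 8 ≤ N₀ → N₀ % 2 = 0 →
      (∃ m < N₀, ∃ j c, IsDRB D (pw X m) j c ∧ ¬ Motivated T.W (pw X m) j c) →
      ∀ (ε : ℝ) (n : ℕ), 0 < ε →
        (2 * (rk T.W.K (Set.univ : Set (T.W.H X)) : ℝ)) ^ (3 * N₀) / ε ^ 2 ≤ n + 1 →
        (dimP (Motivated T.W) (pw X n) : ℝ) ≤ (1 / 2 + ε) * dimP (IsDRB D) (pw X n) := by
  refine ⟨h_mot D, h_tower D X, ?_⟩
  rintro N₀ h8 h2 ⟨m, hm, j, c, hc, hc'⟩ ε n hε hn
  have h1 : rk T.W.K (Set.univ : Set (T.W.H X)) = Module.finrank T.W.K (T.W.H X) := by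
    unfold rk Set.finrank
    rw [Submodule.span_univ, finrank_top]
  rw [h1] at hn
  exact h_half D X h8 h2 hm hc hc' hε hn

end Pool.Agent.Results.MP_f11a48_ag.MotivatedIndex
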