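import Pool.Agent.Q246.LN.Tor2
import Pool.Agent.Y120.H.GS1

/-!
# Near relations between the periods of almost all members of a connected family are specialisations of functional relations

Near a point `x = 0` of the base the periods of a family of varieties over `P¹`, defined over `ℚ`, are polynomials in
`log x`, in G-functions `h_1(x), ..., h_r(x)` with rational coefficients and in constants `ζ` (the periods of the limit
motive), and Grothendieck's conjecture predicts that the relations between the periods of the fibre at a general algebraic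
point `x = 1/α` are the specialisations of the functional relations.  The theorem is a quantitative version for relations
and near relations of bounded degree.  Let the family be connected and let `α_1, ..., α_k` be algebraic integers of
degree at most `m`.  Outside a set of tuples of density `O(T ^ (-c))` among the tuples with conjugates at most `T`, there
is for all polynomials `P` of degree at most `d` and height at most `H` in the periods of the `k` fibres `1/α_j`

* (measure) the lower bound `|P| ≥ H ^ (-B)`, if the coefficients of `P` are polynomials in the `α_j` with integer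
  coefficients, unless `P` vanishes on the whole product of the fibres of the Zariski closure of the functions;
* (transfer) the bound `|P(y)| ≤ (H max(1, |y|)) ^ B |P|` at all points `y` of the product of the fibres, if the
  coefficients of `P` are polynomials in the `α_j` and in arbitrary complex numbers `ζ_1, ..., ζ_g`, uniformly in `ζ`: a
  near relation at the periods is a near relation on the whole product of the fibres.

The exponent `B` depends on the family and on `k, g, d, m` only.  The bounds hold for all `H` in a long interval from `H₁`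
to `H₁ ^ exp (T ^ c)`, for any sufficiently large `H₁`; and, with one exceptional set of tuples for all `H`, for a set
of `H` of upper density at least `1 - T ^ (-c)` on the doubly logarithmic scale, in particular for arbitrarily large
`H`.  They hold for all determinations of the logarithms with absolute value at most `H`.

Proof (modules `Pool.Agent.Q246.LN`, `Pool.Agent.Q246.AF`).  (1) A quantitative form of the theorem of Chudnovsky and
Galochkin gives many small linear forms in products of values at `N` points of a window `ξ - G, ..., ξ - G J`; a sequence of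
counterexamples gives a valuation on an ultrapower of `ℂ` in whose residue field the values of a maximal free
subfamily at the `N` points would be dependent.  (2) Since the family is connected, products of basis functions at
the `N` points remain linearly independent over the field generated in the residue field.  (3) Determinants eliminate the
constants and the powers of `log ξ`; a window contains a bounded number of exceptional points for each `H`.
(4) Induction on `k`, with the values at the other points as constants.  (5) Double counting over the heights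
`2 ^ (2 ^ j)`.  (6) The products of fibres: expansion in basis functions, and the inequality of Liouville.
-/

set_option autoImplicit false

open PowerSeries

namespace Pool.Agent.Results.MP_f11a48_ag.NearRelationsInFamilies

/-- an integer polynomial as a power series with rational coefficients -/
noncomputable def toQ (P : Polynomial ℤ) : PowerSeries ℚ := ((P.map (Int.castRingHom ℚ) : Polynomial ℚ) : PowerSeries ℚ)

/-- the power series `P(u^e)` -/
noncomputable def atPow (e : ℕ) (P : Polynomial ℤ) : PowerSeries ℂ :=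
  ((Polynomial.expand ℂ e (P.map (Int.castRingHom ℂ)) : Polynomial ℂ) : PowerSeries ℂ)

/-- the matrices `G_s` over `ℤ[x]` with `T^s y^(s) = G_s y` for all solutions `y` of `T y' = A y` -/
noncomputable def iter {r : ℕ} (T : Polynomial ℤ) (A : Fin r → Fin r → Polynomial ℤ) : ℕ → Fin r → Fin r → Polynomial ℤ
  | 0 => fun i j => if i = j then 1 else 0
  | s + 1 => fun i j => T * Polynomial.derivative (iter T A s i j) + ∑ l, iter T A s i l * A l j -
      (s : Polynomial ℤ) * (Polynomial.derivative T * iter T A s i j)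

/-- The system `T y' = A y` has a fundamental matrix of solutions of the form `u^(-M) ∑_n Φ_n(u) (log u)^n` with
`u^e = x` and convergent power series `Φ_n`: the point `0` is an ordinary point or a regular singularity with rational
exponents. -/
def QuasiUnipotent {r : ℕ} (T : Polynomial ℤ) (A : Fin r → Fin r → Polynomial ℤ) : Prop :=
  ∃ (e M : ℕ) (K : ℝ) (Φ : Matrix (Fin r) (Fin r) (Polynomial (PowerSeries ℂ))), 1 ≤ e ∧ Φ.det ≠ 0 ∧
    (∀ i j n m, ‖coeff m ((Φ i j).coeff n)‖ ≤ K ^ (m + 1)) ∧
    ∀ i j n, atPow e T * (X * PowerSeries.derivative ℂ ((Φ i j).coeff n) +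
        ((n : PowerSeries ℂ) + 1) * (Φ i j).coeff (n + 1) - (M : PowerSeries ℂ) * (Φ i j).coeff n) =
      (e : PowerSeries ℂ) * X ^ e * ∑ l, atPow e (A i l) * (Φ l j).coeff n

/-- `h_1, ..., h_r` are G-functions with rational coefficients which solve the differential system `T y' = A y`, with
the conditions of Siegel and Galochkin, and the system is regular with rational exponents at `0`. -/
structure GFamily {r : ℕ} (T : Polynomial ℤ) (A : Fin r → Fin r → Polynomial ℤ) (h : Fin r → PowerSeries ℚ) : Prop where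
  /-- the denominator is not zero -/
  T_ne : T ≠ 0
  /-- the differential equations -/
  ode : ∀ i, toQ T * PowerSeries.derivative ℚ (h i) = ∑ j, toQ (A i j) * h j
  /-- the coefficients have geometric growth -/
  size : ∃ C : ℝ, ∀ i m, |((coeff m (h i) : ℚ) : ℝ)| ≤ C ^ (m + 1)
  /-- the common denominators of the coefficients have geometric growth -/
  den : ∃ C : ℝ, ∀ m : ℕ, ∃ d : ℕ, 0 < d ∧ (d : ℝ) ≤ C ^ (m + 1) ∧ ∀ i, ∀ j ≤ m, ∃ a : ℤ, (d : ℚ) * coeff j (h i) = a
  /-- Galochkin's condition: the common denominators of the matrices `G_s / s!` have geometric growth -/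
  galochkin : ∃ C : ℝ, ∀ m : ℕ, ∃ d : ℕ, 0 < d ∧ (d : ℝ) ≤ C ^ (m + 1) ∧ ∀ s ≤ m, ∀ i j,
    ∃ H : Polynomial ℤ, (d : Polynomial ℤ) * iter T A s i j = (s.factorial : Polynomial ℤ) * H
  /-- the local exponents at `0` are rational and the singularity is regular -/
  regular : QuasiUnipotent T A

/-- The family is connected: every element of the field `ℚ(x, h_1, ..., h_r)` which is algebraic over `ℚ(x)` is in
`ℚ(x)`; the elements of this field are the quotients `A(h) / B(h)`, where `A`, `B` are polynomials over `ℚ[x]`. -/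
def Connected {r : ℕ} (h : Fin r → PowerSeries ℚ) : Prop := ∀ A B : MvPolynomial (Fin r) (Polynomial ℚ),
  IsAlgebraic (Polynomial ℚ) (algebraMap (PowerSeries ℚ) (FractionRing (PowerSeries ℚ)) (MvPolynomial.aeval h A) /
    algebraMap (PowerSeries ℚ) (FractionRing (PowerSeries ℚ)) (MvPolynomial.aeval h B)) →
  ∃ a b : Polynomial ℚ, b ≠ 0 ∧ algebraMap (PowerSeries ℚ) (FractionRing (PowerSeries ℚ)) (MvPolynomial.aeval h A) /
    algebraMap (PowerSeries ℚ) (FractionRing (PowerSeries ℚ)) (MvPolynomial.aeval h B) =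
      algebraMap (Polynomial ℚ) (FractionRing (PowerSeries ℚ)) a /
        algebraMap (Polynomial ℚ) (FractionRing (PowerSeries ℚ)) b

/-- the algebraic integers of degree at most `m` all of whose conjugates have absolute value at most `T` -/
def Ints (m T : ℕ) : Set ℂ :=
  {α | IsIntegral ℤ α ∧ (minpoly ℚ α).natDegree ≤ m ∧ ∀ z : ℂ, Polynomial.aeval z (minpoly ℚ α) = 0 → ‖z‖ ≤ T}

/-- the value `h_i(1 / α)` -/
noncomputable def value {r : ℕ} (h : Fin r → PowerSeries ℚ) (α : ℂ) (i : Fin r) : ℂ :=
  ∑' n : ℕ, ((coeff n (h i) : ℚ) : ℂ) * (1 / α) ^ n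

/-- the point with the coordinates `ℓ_j` and `h_i(1 / α_j)` -/
noncomputable def point {r k : ℕ} (h : Fin r → PowerSeries ℚ) (α ℓ : Fin k → ℂ) : Fin k × Option (Fin r) → ℂ :=
  fun a => a.2.elim (ℓ a.1) fun i => value h (α a.1) i

/-- the common zeros of the specialisations at `x = 1 / α` of all polynomial relations `R(x, h(x)) = 0` over `ℚ[x]` -/
def Fibre {r : ℕ} (h : Fin r → PowerSeries ℚ) (α : ℂ) : Set (Fin r → ℂ) :=
  {y | ∀ R : MvPolynomial (Fin r) (Polynomial ℚ), MvPolynomial.aeval h R = 0 →
    MvPolynomial.eval₂ (Polynomial.aeval (1 / α) : Polynomial ℚ →ₐ[ℚ] ℂ).toRingHom y R = 0}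

/-- the product of the fibres at `1 / α_j` and of `k` lines, on which the logarithms vary freely -/
def Fibres {r k : ℕ} (h : Fin r → PowerSeries ℚ) (α : Fin k → ℂ) : Set (Fin k × Option (Fin r) → ℂ) :=
  {y | ∀ j, (fun i => y (j, some i)) ∈ Fibre h (α j)}

/-- the polynomials `P(X, A)` of degree at most `d` with integer coefficients at most `H`, where the variables `A` stand for
the `α_j`: if `P(y, α) ≠ 0` for some point `y` of the product of the fibres, then `|P(w, α)| ≥ H ^ (-B)` at the point `w` -/
def Measure {r k : ℕ} (h : Fin r → PowerSeries ℚ) (d B : ℕ) (α : Fin k → ℂ) (w : Fin k × Option (Fin r) → ℂ) (H : ℝ) :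
    Prop :=
  ∀ P : MvPolynomial ((Fin k × Option (Fin r)) ⊕ Fin k) ℤ, P.totalDegree ≤ d → (∀ e, |((P.coeff e : ℤ) : ℝ)| ≤ H) →
    (∃ y ∈ Fibres h α, MvPolynomial.aeval (Sum.elim y α) P ≠ 0) →
    1 ≤ H ^ B * ‖MvPolynomial.aeval (Sum.elim w α) P‖

/-- the polynomials `P(X, Z, A)` of degree at most `d` with integer coefficients at most `H`, where the variables `Z` stand
for the constants `ζ` and `A` for the `α_j`: `|P(y, ζ, α)| ≤ (H max(1, |y|)) ^ B |P(w, ζ, α)|` for all points `y` of the
product of the fibres (here `|y|` is the maximum of the absolute values of the coordinates) -/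
def Transfer {r k g : ℕ} (h : Fin r → PowerSeries ℚ) (d B : ℕ) (ζ : Fin g → ℂ) (α : Fin k → ℂ)
    (w : Fin k × Option (Fin r) → ℂ) (H : ℝ) : Prop :=
  ∀ P : MvPolynomial ((Fin k × Option (Fin r)) ⊕ (Fin g ⊕ Fin k)) ℤ, P.totalDegree ≤ d →
    (∀ e, |((P.coeff e : ℤ) : ℝ)| ≤ H) → ∀ y ∈ Fibres h α,
    ‖MvPolynomial.aeval (Sum.elim y (Sum.elim ζ α)) P‖ ≤
      (H * max 1 ‖y‖) ^ B * ‖MvPolynomial.aeval (Sum.elim w (Sum.elim ζ α)) P‖

/-- both bounds hold at `H`, for all determinations `ℓ_j` of `log α_j` with `|ℓ_j| ≤ H` -/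
def Good {r k g : ℕ} (h : Fin r → PowerSeries ℚ) (d B : ℕ) (ζ : Fin g → ℂ) (α : Fin k → ℂ) (H : ℝ) : Prop :=
  ∀ ℓ : Fin k → ℂ, (∀ j, Complex.exp (ℓ j) = α j) → (∀ j, ‖ℓ j‖ ≤ H) →
    Measure h d B α (point h α ℓ) H ∧ Transfer h d B ζ α (point h α ℓ) H

theorem iter_eq {r : ℕ} (T : Polynomial ℤ) (A : Fin r → Fin r → Polynomial ℤ) (s : ℕ) :
    iter T A s = Pool.Agent.Y120.GH.itm T A s := by
  induction s with
  | zero => rfl
  | succ s ih =>
    funext i j
    rw [iter, Pool.Agent.Y120.GH.itm, ih]

theorem qu_eq {r : ℕ} {T : Polynomial ℤ} {A : Fin r → Fin r → Polynomial ℤ} (h : QuasiUnipotent T A) :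
    Pool.Agent.Y120.GH.QU0 T A := by
  obtain ⟨e, M, K, Φ, he, hdet, hc, heq⟩ := h
  have he0 : e ≠ 0 := by omega
  refine ⟨e, he0, M, K, Φ, hc, fun i j n => ?_, hdet⟩
  have h1 := heq i j n
  simp only [atPow] at h1
  rw [Pool.Agent.Y120.GH.expand_poly he0]
  simp only [Pool.Agent.Y120.GH.expand_poly he0]
  exact h1

theorem GFamily.gfs {r : ℕ} {T : Polynomial ℤ} {A : Fin r → Fin r → Polynomial ℤ} {h : Fin r → PowerSeries ℚ}
    (hG : GFamily T A h) : Pool.Agent.Y916.Af.GFs T A h := by
  refine ⟨hG.T_ne, hG.ode, hG.size, Pool.Agent.Y120.GH.gsys_of (T := T) (A := A) hG.ode hG.size hG.den ?_, qu_eq hG.regular⟩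
  obtain ⟨C, hC⟩ := hG.galochkin
  refine ⟨C, fun m => ?_⟩
  obtain ⟨d, h1, h2, h3⟩ := hC m
  refine ⟨d, h1, h2, fun s hs i' j' => ?_⟩
  rw [← iter_eq]
  exact h3 s hs i' j'

/-- Let `h = (h_1, ..., h_r)` be a connected family of G-functions. For all `k`, `g`, `d`, `m ≥ 1` there are `B`, `C` and
`c > 0` such that for all `T ≥ 1`: (1) for every sufficiently large `H₁` and all `ζ ∈ ℂ^g`, all but at most
`C T ^ (-c) |Ints m T| ^ k` of the tuples `α ∈ (Ints m T)^k` are good for all `H` with `H₁ ≤ H ≤ H₁ ^ exp (T ^ c)`;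
(2) for all `ζ ∈ ℂ^g`, all but at most `C T ^ (-c) |Ints m T| ^ k` of the tuples `α ∈ (Ints m T)^k` have the property that
there are arbitrarily large `N` such that, for all but at most `T ^ (-c) N` of the `j < N`, `α` is good for all `H`
with `2 ^ (2 ^ j) ≤ H ≤ 2 ^ (2 ^ (j + 1))`. -/
theorem result {r : ℕ} (T₀ : Polynomial ℤ) (A : Fin r → Fin r → Polynomial ℤ) (h : Fin r → PowerSeries ℚ)
    (hG : GFamily T₀ A h) (hconn : Connected h) (k g d m : ℕ) (hm : 1 ≤ m) :
    ∃ (B : ℕ) (C c : ℝ), 0 < c ∧ ∀ T : ℕ, 1 ≤ T →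
    (∃ H₀ : ℝ, ∀ H₁ : ℝ, H₀ ≤ H₁ → ∀ ζ : Fin g → ℂ,
      (({α : Fin k → ℂ | (∀ j, α j ∈ Ints m T) ∧ ¬ ∀ H : ℝ, H₁ ≤ H → H ≤ H₁ ^ Real.exp ((T : ℝ) ^ c) →
        Good h d B ζ α H}.ncard : ℕ) : ℝ) ≤ C * (T : ℝ) ^ (-c) * (((Ints m T).ncard : ℕ) : ℝ) ^ k) ∧
    ∀ ζ : Fin g → ℂ, (({α : Fin k → ℂ | (∀ j, α j ∈ Ints m T) ∧ ¬ ∀ N₀ : ℕ, ∃ N, N₀ ≤ N ∧
      (({j : ℕ | j < N ∧ ¬ ∀ H : ℝ, 2 ^ (2 ^ j) ≤ H → H ≤ 2 ^ (2 ^ (j + 1)) → Good h d B ζ α H}.ncard : ℕ) : ℝ) ≤
        (T : ℝ) ^ (-c) * N}.ncard : ℕ) : ℝ) ≤ C * (T : ℝ) ^ (-c) * (((Ints m T).ncard : ℕ) : ℝ) ^ k := by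
  obtain ⟨I, hI1, hI2⟩ := Pool.Agent.Y118.UL.exists_free h
  exact Pool.Agent.Q246.LN.torL (Pool.Agent.Q246.AF.t_famN hG.gfs) hG.size hconn (I := I) ⟨hI1, hI2⟩ g k m d hm

end Pool.Agent.Results.MP_f11a48_ag.NearRelationsInFamilies
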